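import Mathlib

/-!
# MP_a53ef7_an: scaling of truncated gap integrals fails on the line for exponents below one
-/

open MeasureTheory Set Metric
open scoped ENNReal Real

namespace Pool.Agent.Results.MP_a53ef7_an.FailsOnLine

/-- The truncated gap integral `G_p^t(f, Ω)` of a map `f : ℝ^m → N`, where `d` is the distance of
`N`. (Note `0 ^ 0 = 1` for the real power function.) -/
noncomputable def gap {N : Type*} (d : N → N → ℝ) (m : ℕ) (p t : ℝ)
    (f : EuclideanSpace ℝ (Fin m) → N) (Ω : Set (EuclideanSpace ℝ (Fin m))) : ℝ≥0∞ :=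
  ∫⁻ z in {z : EuclideanSpace ℝ (Fin m) × EuclideanSpace ℝ (Fin m) |
      z.1 ∈ Ω ∧ z.2 ∈ Ω ∧ t ≤ d (f z.2) (f z.1)},
    ENNReal.ofReal ((d (f z.2) (f z.1) - t) ^ p / ‖z.2 - z.1‖ ^ (2 * m))

/-- The inequality of Q1 holds with the constant `C`. -/
def Inequality {N : Type*} [MeasurableSpace N] (d : N → N → ℝ) (m : ℕ) (p C : ℝ) : Prop :=
  ∀ Ω : Set (EuclideanSpace ℝ (Fin m)), Convex ℝ Ω →
    ∀ f : EuclideanSpace ℝ (Fin m) → N, Measurable f → ∀ δ ε : ℝ, 0 < δ → δ < ε →
      gap d m p ε f Ω ≤ ENNReal.ofReal (C * (δ / ε) ^ ((m : ℝ) - p)) * gap d m p δ f Ω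

/-- `N` contains an isometric copy of a segment (a minimising geodesic). -/
def HasSegment {N : Type*} [MeasurableSpace N] (d : N → N → ℝ) : Prop :=
  ∃ L : ℝ, 0 < L ∧ ∃ γ : ℝ → N, Measurable γ ∧
    ∀ s ∈ Icc 0 L, ∀ t ∈ Icc 0 L, d (γ s) (γ t) = |s - t|

section calculus

lemma lint_Ioo {a b : ℝ} (hab : a ≤ b) {g G : ℝ → ℝ} (hd : ∀ x ∈ Icc a b, HasDerivAt G (g x) x)
    (hg0 : ∀ x ∈ Ioo a b, 0 ≤ g x) (hgc : ContinuousOn g (Icc a b)) :
    ∫⁻ x in Ioo a b, ENNReal.ofReal (g x) = ENNReal.ofReal (G b - G a) := by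
  have hint : IntegrableOn g (Ioo a b) :=
    (hgc.integrableOn_compact isCompact_Icc).mono_set Ioo_subset_Icc_self
  rw [← ofReal_integral_eq_lintegral_ofReal hint
    ((ae_restrict_iff' measurableSet_Ioo).mpr (Filter.Eventually.of_forall hg0)),
    ← integral_Ioc_eq_integral_Ioo, ← intervalIntegral.integral_of_le hab,
    intervalIntegral.integral_eq_sub_of_hasDerivAt (fun x hx => hd x (by
      rwa [uIcc_of_le hab] at hx)) (hgc.intervalIntegrable_of_Icc hab)]

lemma lint_Ici {a x : ℝ} (h : x < a) :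
    ∫⁻ y in Ici a, ENNReal.ofReal (((y - x) ^ 2)⁻¹) = ENNReal.ofReal ((a - x)⁻¹) := by
  have hder : ∀ y ∈ Ici a, HasDerivAt (fun y => -(y - x)⁻¹) (((y - x) ^ 2)⁻¹) y := by
    intro y hy
    have hy' : a ≤ y := hy
    have hne : y - x ≠ 0 := by
      have : 0 < y - x := by linarith
      exact this.ne'
    have h1 := (((hasDerivAt_id' y).sub_const x).inv hne).neg
    exact h1.congr_deriv (by ring)
  have hpos : ∀ y ∈ Ioi a, 0 ≤ ((y - x) ^ 2)⁻¹ := fun y _ => by positivity
  have hlim : Filter.Tendsto (fun y => -(y - x)⁻¹) Filter.atTop (nhds 0) := by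
    have h1 : Filter.Tendsto (fun y : ℝ => y - x) Filter.atTop Filter.atTop :=
      Filter.tendsto_atTop_add_const_right _ _ Filter.tendsto_id
    have h2 := (tendsto_inv_atTop_zero.comp h1).neg
    simpa using h2
  have hint := integrableOn_Ioi_deriv_of_nonneg' hder hpos hlim
  have hval := integral_Ioi_of_hasDerivAt_of_nonneg' hder hpos hlim
  rw [setLIntegral_congr Ioi_ae_eq_Ici.symm, ← ofReal_integral_eq_lintegral_ofReal hint
    ((ae_restrict_iff' measurableSet_Ioi).mpr (Filter.Eventually.of_forall hpos)), hval]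
  congr 1
  ring

/-- the kernel -/
noncomputable def K (z : ℝ × ℝ) : ℝ≥0∞ := ENNReal.ofReal (((z.2 - z.1) ^ 2)⁻¹)

lemma K_measurable : Measurable K := by
  unfold K
  fun_prop

lemma K_swap (z : ℝ × ℝ) : K z.swap = K z := by
  unfold K
  rw [Prod.fst_swap, Prod.snd_swap, ← neg_sub, neg_sq]

/-- upper bound on the region near the jump -/
lemma upper {w η : ℝ} (hw : 0 < w) (hw1 : w < 1) (hη : 0 < η) (hη1 : η < 1) :
    ∫⁻ z in {z : ℝ × ℝ | -1 < z.1 ∧ z.1 < w ∧ 0 < z.2 ∧ η * w ≤ z.2 - z.1}, K z ≤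
      ENNReal.ofReal (Real.log (1 / (η * w)) + 2 / η) := by
  set c := η * w with hc
  have hc0 : 0 < c := mul_pos hη hw
  have hc1 : c < 1 := by nlinarith
  set S : Set (ℝ × ℝ) := {z | -1 < z.1 ∧ z.1 < w ∧ 0 < z.2 ∧ c ≤ z.2 - z.1} with hS
  have hSm : MeasurableSet S := by
    refine MeasurableSet.inter (measurableSet_lt measurable_const measurable_fst) ?_
    refine MeasurableSet.inter (measurableSet_lt measurable_fst measurable_const) ?_
    refine MeasurableSet.inter (measurableSet_lt measurable_const measurable_snd) ?_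
    exact measurableSet_le measurable_const (measurable_snd.sub measurable_fst)
  rw [← lintegral_indicator hSm, Measure.volume_eq_prod,
    lintegral_prod _ ((K_measurable.indicator hSm).aemeasurable)]
  have h1 : ∀ x, ∫⁻ y, S.indicator K (x, y) ≤
      (Ioo (-1) w).indicator (fun x => ENNReal.ofReal ((max c (-x))⁻¹)) x := by
    intro x
    by_cases hx : x ∈ Ioo (-1) w
    · rw [indicator_of_mem hx]
      have h2 : ∀ y, S.indicator K (x, y) ≤ (Ici (max (x + c) 0)).indicator
          (fun y => ENNReal.ofReal (((y - x) ^ 2)⁻¹)) y := by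
        intro y
        by_cases hy : (x, y) ∈ S
        · rw [indicator_of_mem hy, indicator_of_mem]
          · exact le_refl _
          · obtain ⟨-, -, hy1, hy2⟩ := hy
            simp only at hy1 hy2
            exact max_le (by linarith) hy1.le
        · rw [indicator_of_notMem hy]
          exact zero_le
      refine (lintegral_mono h2).trans ?_
      have hlt : x < max (x + c) 0 := lt_max_of_lt_left (by linarith)
      rw [lintegral_indicator measurableSet_Ici, lint_Ici hlt]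
      have : max (x + c) 0 - x = max c (-x) := by
        rcases le_total (x + c) 0 with h | h
        · rw [max_eq_right h, max_eq_right (by linarith)]
          ring
        · rw [max_eq_left h, max_eq_left (by linarith)]
          ring
      rw [this]
    · rw [indicator_of_notMem hx]
      have : ∀ y, S.indicator K (x, y) = 0 := fun y =>
        indicator_of_notMem (fun hy => hx ⟨hy.1, hy.2.1⟩) _
      simp [this]
  refine (lintegral_mono h1).trans ?_
  rw [lintegral_indicator measurableSet_Ioo]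
  have hsub : Ioo (-1) w ⊆ Ioo (-1) (-c) ∪ Ico (-c) w := by
    intro x hx
    rcases lt_or_ge x (-c) with h | h
    · exact Or.inl ⟨hx.1, h⟩
    · exact Or.inr ⟨h, hx.2⟩
  refine (lintegral_mono_set hsub).trans ((lintegral_union_le _ _ _).trans ?_)
  have e1 : ∫⁻ x in Ioo (-1) (-c), ENNReal.ofReal ((max c (-x))⁻¹) =
      ENNReal.ofReal (Real.log (1 / c)) := by
    have e2 : ∫⁻ x in Ioo (-1) (-c), ENNReal.ofReal ((max c (-x))⁻¹) =
        ∫⁻ x in Ioo (-1) (-c), ENNReal.ofReal ((-x)⁻¹) := by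
      refine setLIntegral_congr_fun measurableSet_Ioo fun x hx => ?_
      have : c ≤ -x := by linarith [hx.2]
      simp only [max_eq_right this]
    rw [e2, lint_Ioo (G := fun x => -Real.log (-x)) (by linarith)]
    · congr 1
      rw [neg_neg, neg_neg, Real.log_one, one_div, Real.log_inv]
      ring
    · intro x hx
      have hx0 : -x ≠ 0 := by
        have : 0 < -x := by linarith [hx.2]
        exact this.ne'
      have h2 := ((Real.hasDerivAt_log hx0).comp x (hasDerivAt_neg x)).neg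
      exact h2.congr_deriv (by ring)
    · intro x hx
      have : 0 < -x := by linarith [hx.2]
      positivity
    · refine ContinuousOn.inv₀ continuousOn_neg fun x hx => ?_
      have : 0 < -x := by linarith [hx.2]
      exact this.ne'
  have e2 : ∫⁻ x in Ico (-c) w, ENNReal.ofReal ((max c (-x))⁻¹) ≤ ENNReal.ofReal (2 / η) := by
    have h2 : ∫⁻ x in Ico (-c) w, ENNReal.ofReal ((max c (-x))⁻¹) ≤
        ∫⁻ x in Ico (-c) w, ENNReal.ofReal (c⁻¹) := by
      refine lintegral_mono fun x => ENNReal.ofReal_le_ofReal ?_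
      exact inv_anti₀ hc0 (le_max_left _ _)
    refine h2.trans ?_
    rw [setLIntegral_const, Real.volume_Ico, ← ENNReal.ofReal_mul (by positivity)]
    refine ENNReal.ofReal_le_ofReal ?_
    rw [hc]
    have : (η * w)⁻¹ * (w - -(η * w)) = 1 / η + 1 := by
      field_simp
      ring
    rw [this]
    have h3 : 1 ≤ 1 / η := by rw [le_div_iff₀ hη]; linarith
    have h4 : 2 / η = 1 / η + 1 / η := by ring
    linarith
  rw [e1, ENNReal.ofReal_add (Real.log_nonneg (by rw [le_div_iff₀ hc0]; linarith))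
    (by positivity)]
  exact add_le_add le_rfl e2

/-- lower bound on the pairs on different sides of the jump -/
lemma lower {w : ℝ} (hw : 0 < w) (hw1 : w < 1) :
    ENNReal.ofReal (Real.log (1 / w) - 1) ≤
      ∫⁻ z in {z : ℝ × ℝ | -1 < z.1 ∧ z.1 < 0 ∧ w < z.2 ∧ z.2 < 1}, K z := by
  have hset : {z : ℝ × ℝ | -1 < z.1 ∧ z.1 < 0 ∧ w < z.2 ∧ z.2 < 1} = Ioo (-1) 0 ×ˢ Ioo w 1 := by
    ext z
    simp only [mem_prod, mem_Ioo]
    constructor
    · rintro ⟨h1, h2, h3, h4⟩
      exact ⟨⟨h1, h2⟩, h3, h4⟩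
    · rintro ⟨⟨h1, h2⟩, h3, h4⟩
      exact ⟨h1, h2, h3, h4⟩
  rw [hset, Measure.volume_eq_prod, setLIntegral_prod _ K_measurable.aemeasurable]
  have h1 : ∀ x ∈ Ioo (-1 : ℝ) 0, ∫⁻ y in Ioo w 1, K (x, y) =
      ENNReal.ofReal ((w - x)⁻¹ - (1 - x)⁻¹) := by
    intro x hx
    have e : ∫⁻ y in Ioo w 1, K (x, y) = ENNReal.ofReal (-(1 - x)⁻¹ - -(w - x)⁻¹) := by
      unfold K
      simp only
      refine lint_Ioo (G := fun y => -(y - x)⁻¹) hw1.le ?_ ?_ ?_
      · intro y hy
        have hne : y - x ≠ 0 := by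
          have : 0 < y - x := by linarith [hy.1, hx.2]
          exact this.ne'
        have h1 := (((hasDerivAt_id' y).sub_const x).inv hne).neg
        exact h1.congr_deriv (by ring)
      · intro y _
        positivity
      · refine ContinuousOn.inv₀ (by fun_prop) fun y hy => ?_
        have : 0 < y - x := by linarith [hy.1, hx.2]
        positivity
    rw [e]
    congr 1
    ring
  have h2 : ∫⁻ x in Ioo (-1 : ℝ) 0, ∫⁻ y in Ioo w 1, K (x, y) =
      ∫⁻ x in Ioo (-1 : ℝ) 0, ENNReal.ofReal ((w - x)⁻¹ - (1 - x)⁻¹) :=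
    setLIntegral_congr_fun measurableSet_Ioo h1
  rw [h2, lint_Ioo (G := fun x => -Real.log (w - x) + Real.log (1 - x)) (by norm_num)]
  · refine ENNReal.ofReal_le_ofReal ?_
    have hlog2 : Real.log 2 ≤ 1 := by
      rw [Real.log_le_iff_le_exp (by norm_num)]
      have := Real.add_one_le_exp (1 : ℝ)
      linarith
    have hlogw : 0 ≤ Real.log (w + 1) := Real.log_nonneg (by linarith)
    have e1 : (1 : ℝ) - -1 = 2 := by norm_num
    rw [sub_zero, sub_zero, sub_neg_eq_add, e1, Real.log_one, one_div, Real.log_inv]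
    linarith
  · intro x hx
    have hne : w - x ≠ 0 := by
      have : 0 < w - x := by linarith [hx.2]
      exact this.ne'
    have hne' : 1 - x ≠ 0 := by
      have : 0 < 1 - x := by linarith [hx.2]
      exact this.ne'
    have a1 := ((hasDerivAt_id' x).const_sub w).log hne
    have a2 := ((hasDerivAt_id' x).const_sub 1).log hne'
    exact (a1.neg.add a2).congr_deriv (by ring)
  · intro x hx
    have : (1 - x)⁻¹ ≤ (w - x)⁻¹ := inv_anti₀ (by linarith [hx.2]) (by linarith)
    linarith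
  · refine ContinuousOn.sub ?_ ?_
    · refine ContinuousOn.inv₀ (by fun_prop) fun x hx => ?_
      have : 0 < w - x := by linarith [hx.2]
      exact this.ne'
    · refine ContinuousOn.inv₀ (by fun_prop) fun x hx => ?_
      have : 0 < 1 - x := by linarith [hx.2]
      exact this.ne'

end calculus

section main

/-- the isometry between `ℝ` and `ℝ¹` -/
noncomputable def e : ℝ ≃ₗᵢ[ℝ] EuclideanSpace ℝ (Fin 1) :=
  (OrthonormalBasis.singleton (Fin 1) ℝ).repr

lemma gap_line {N : Type*} (d : N → N → ℝ) (p t : ℝ) (f : EuclideanSpace ℝ (Fin 1) → N) :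
    gap d 1 p t f (ball 0 1) = ∫⁻ z in {z : ℝ × ℝ | |z.1| < 1 ∧ |z.2| < 1 ∧
      t ≤ d (f (e z.2)) (f (e z.1))},
      ENNReal.ofReal ((d (f (e z.2)) (f (e z.1)) - t) ^ p * ((z.2 - z.1) ^ 2)⁻¹) := by
  have hmp : MeasurePreserving (Prod.map e e) (volume : Measure (ℝ × ℝ))
      (volume : Measure (EuclideanSpace ℝ (Fin 1) × EuclideanSpace ℝ (Fin 1))) :=
    e.measurePreserving.prod e.measurePreserving
  have hemb : MeasurableEmbedding (Prod.map e e) :=
    e.toHomeomorph.measurableEmbedding.prodMap e.toHomeomorph.measurableEmbedding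
  unfold gap
  rw [← hmp.setLIntegral_comp_preimage_emb hemb]
  have hs : Prod.map e e ⁻¹' {z : EuclideanSpace ℝ (Fin 1) × EuclideanSpace ℝ (Fin 1) |
      z.1 ∈ ball 0 1 ∧ z.2 ∈ ball 0 1 ∧ t ≤ d (f z.2) (f z.1)} =
      {z : ℝ × ℝ | |z.1| < 1 ∧ |z.2| < 1 ∧ t ≤ d (f (e z.2)) (f (e z.1))} := by
    ext z
    simp only [mem_preimage, Set.mem_ofPred_eq, Prod.map_fst, Prod.map_snd, mem_ball_zero_iff,
      LinearIsometryEquiv.norm_map, Real.norm_eq_abs]
  rw [hs]
  refine lintegral_congr fun z => ?_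
  congr 1
  rw [Prod.map_fst, Prod.map_snd, ← map_sub, LinearIsometryEquiv.norm_map, Real.norm_eq_abs,
    mul_one, sq_abs, div_eq_mul_inv]

/-- the profile -/
noncomputable def θ (L w x : ℝ) : ℝ := L * max 0 (min 1 (x / w))

lemma θ_cont (L w : ℝ) : Continuous (θ L w) := by
  unfold θ
  fun_prop

lemma θ_mem {L : ℝ} (hL : 0 < L) (w x : ℝ) : θ L w x ∈ Icc 0 L := by
  have h1 : 0 ≤ max 0 (min 1 (x / w)) := le_max_left _ _
  have h2 : max 0 (min 1 (x / w)) ≤ 1 := max_le zero_le_one (min_le_left _ _)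
  constructor
  · exact mul_nonneg hL.le h1
  · exact mul_le_of_le_one_right hL.le h2

lemma θ_zero {L w x : ℝ} (hw : 0 < w) (hx : x ≤ 0) : θ L w x = 0 := by
  unfold θ
  have : x / w ≤ 0 := div_nonpos_of_nonpos_of_nonneg hx hw.le
  rw [max_eq_left ((min_le_right _ _).trans this), mul_zero]

lemma θ_one {L w x : ℝ} (hw : 0 < w) (hx : w ≤ x) : θ L w x = L := by
  unfold θ
  have : 1 ≤ x / w := by rwa [le_div_iff₀ hw, one_mul]
  rw [min_eq_left this, max_eq_right zero_le_one, mul_one]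

lemma θ_mono {L w : ℝ} (hL : 0 < L) (hw : 0 < w) : Monotone (θ L w) := by
  intro x y hxy
  unfold θ
  gcongr

lemma θ_lip {L w x y : ℝ} (hL : 0 < L) (hw : 0 < w) (hxy : x ≤ y) :
    θ L w y - θ L w x ≤ L * ((y - x) / w) := by
  unfold θ
  rw [← mul_sub]
  refine mul_le_mul_of_nonneg_left ?_ hL.le
  have h1 : y / w = x / w + (y - x) / w := by ring
  have h2 : 0 ≤ (y - x) / w := div_nonneg (by linarith) hw.le
  set u := x / w
  set v := (y - x) / w
  rw [h1]
  rcases le_total 0 (min 1 u) with h | h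
  · rw [max_eq_right h]
    have : max 0 (min 1 (u + v)) ≤ min 1 u + v := by
      refine max_le (by linarith) ?_
      rcases le_total 1 u with h3 | h3
      · rw [min_eq_left h3]
        exact (min_le_left _ _).trans (by linarith)
      · rw [min_eq_right h3]
        exact min_le_right _ _
    linarith
  · rw [max_eq_left h]
    have hu : u ≤ 0 := by
      by_contra hcon
      push Not at hcon
      have : 0 < min 1 u := lt_min one_pos hcon
      linarith
    have : max 0 (min 1 (u + v)) ≤ v := max_le h2 ((min_le_right _ _).trans (by linarith))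
    linarith

variable {N : Type*} {d : N → N → ℝ} {L : ℝ} {γ : ℝ → N}

/-- the map with a steep transition -/
noncomputable def ff (L w : ℝ) (γ : ℝ → N) (z : EuclideanSpace ℝ (Fin 1)) : N :=
  γ (θ L w (e.symm z))

lemma d_ff (hL : 0 < L) (hγ : ∀ s ∈ Icc 0 L, ∀ t ∈ Icc 0 L, d (γ s) (γ t) = |s - t|) (w x y : ℝ) :
    d (ff L w γ (e y)) (ff L w γ (e x)) = |θ L w y - θ L w x| := by
  unfold ff
  rw [LinearIsometryEquiv.symm_apply_apply, LinearIsometryEquiv.symm_apply_apply]
  exact hγ _ (θ_mem hL w y) _ (θ_mem hL w x)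

lemma gap_lower (hL : 0 < L) (hγ : ∀ s ∈ Icc 0 L, ∀ t ∈ Icc 0 L, d (γ s) (γ t) = |s - t|)
    {p w : ℝ} (hw : 0 < w) (hw1 : w < 1) :
    ENNReal.ofReal ((L / 2) ^ p * (Real.log (1 / w) - 1)) ≤
      gap d 1 p (L / 2) (ff L w γ) (ball 0 1) := by
  rw [gap_line]
  have hLp : 0 ≤ (L / 2) ^ p := by positivity
  have h1 : ∫⁻ z in {z : ℝ × ℝ | -1 < z.1 ∧ z.1 < 0 ∧ w < z.2 ∧ z.2 < 1},
      ENNReal.ofReal ((L / 2) ^ p) * K z ≤
      ∫⁻ z in {z : ℝ × ℝ | |z.1| < 1 ∧ |z.2| < 1 ∧
      L / 2 ≤ d (ff L w γ (e z.2)) (ff L w γ (e z.1))}, ENNReal.ofReal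
        ((d (ff L w γ (e z.2)) (ff L w γ (e z.1)) - L / 2) ^ p * ((z.2 - z.1) ^ 2)⁻¹) := by
    have hm : MeasurableSet {z : ℝ × ℝ | -1 < z.1 ∧ z.1 < 0 ∧ w < z.2 ∧ z.2 < 1} := by
      refine MeasurableSet.inter (measurableSet_lt measurable_const measurable_fst) ?_
      refine MeasurableSet.inter (measurableSet_lt measurable_fst measurable_const) ?_
      refine MeasurableSet.inter (measurableSet_lt measurable_const measurable_snd) ?_
      exact measurableSet_lt measurable_snd measurable_const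
    have hval : ∀ z : ℝ × ℝ, z ∈ {z : ℝ × ℝ | -1 < z.1 ∧ z.1 < 0 ∧ w < z.2 ∧ z.2 < 1} →
        d (ff L w γ (e z.2)) (ff L w γ (e z.1)) = L := by
      rintro z ⟨-, h2, h3, -⟩
      rw [d_ff hL hγ, θ_one hw h3.le, θ_zero hw h2.le, sub_zero, abs_of_pos hL]
    refine le_trans (le_of_eq ?_) (lintegral_mono_set (s := {z : ℝ × ℝ | -1 < z.1 ∧ z.1 < 0 ∧
      w < z.2 ∧ z.2 < 1}) ?_)
    · refine setLIntegral_congr_fun hm fun z hz => ?_
      rw [hval z hz, show L - L / 2 = L / 2 by ring, K, ← ENNReal.ofReal_mul hLp]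
    · intro z hz
      refine ⟨?_, ?_, ?_⟩
      · rw [abs_lt]
        exact ⟨hz.1, by linarith [hz.2.1]⟩
      · rw [abs_lt]
        exact ⟨by linarith [hz.2.2.1], hz.2.2.2⟩
      · rw [hval z hz]
        linarith
  refine le_trans ?_ h1
  rw [lintegral_const_mul _ K_measurable, ENNReal.ofReal_mul hLp]
  gcongr
  exact lower hw hw1

lemma gap_upper (hL : 0 < L) (hγ : ∀ s ∈ Icc 0 L, ∀ t ∈ Icc 0 L, d (γ s) (γ t) = |s - t|)
    {p w η : ℝ} (hp : 0 ≤ p) (hw : 0 < w) (hw1 : w < 1) (hη : 0 < η) (hη1 : η < 1) :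
    gap d 1 p (L * η) (ff L w γ) (ball 0 1) ≤
      ENNReal.ofReal (2 * L ^ p * (Real.log (1 / (η * w)) + 2 / η)) := by
  rw [gap_line]
  set S : Set (ℝ × ℝ) := {z | -1 < z.1 ∧ z.1 < w ∧ 0 < z.2 ∧ η * w ≤ z.2 - z.1} with hS
  have hLp : 0 ≤ L ^ p := by positivity
  have hLη : 0 < L * η := mul_pos hL hη
  have hcover : {z : ℝ × ℝ | |z.1| < 1 ∧ |z.2| < 1 ∧
      L * η ≤ d (ff L w γ (e z.2)) (ff L w γ (e z.1))} ⊆ S ∪ Prod.swap ⁻¹' S := by
    have key : ∀ x y : ℝ, -1 < x → x ≤ y → L * η ≤ θ L w y - θ L w x → (x, y) ∈ S := by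
      intro x y hx hxy h
      refine ⟨hx, ?_, ?_, ?_⟩
      · by_contra hcon
        push Not at hcon
        rw [θ_one hw hcon, θ_one hw (hcon.trans hxy)] at h
        linarith
      · by_contra hcon
        push Not at hcon
        rw [θ_zero hw hcon, θ_zero hw (hxy.trans hcon)] at h
        linarith
      · have h2 := h.trans (θ_lip hL hw hxy)
        have h3 : η ≤ (y - x) / w := le_of_mul_le_mul_left h2 hL
        rwa [le_div_iff₀ hw] at h3
    rintro ⟨x, y⟩ ⟨hx, hy, h⟩
    simp only at hx hy h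
    rw [d_ff hL hγ] at h
    rcases le_total x y with hxy | hxy
    · left
      rw [abs_of_nonneg (by linarith [θ_mono hL hw hxy])] at h
      exact key x y (abs_lt.mp hx).1 hxy h
    · right
      rw [abs_sub_comm, abs_of_nonneg (by linarith [θ_mono hL hw hxy])] at h
      exact key y x (abs_lt.mp hy).1 hxy h
  have hbound : ∀ z : ℝ × ℝ, ENNReal.ofReal
        ((d (ff L w γ (e z.2)) (ff L w γ (e z.1)) - L * η) ^ p * ((z.2 - z.1) ^ 2)⁻¹) ≤
        ENNReal.ofReal (L ^ p) * K z ∨ ¬ (L * η ≤ d (ff L w γ (e z.2)) (ff L w γ (e z.1))) := by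
    intro z
    by_cases h : L * η ≤ d (ff L w γ (e z.2)) (ff L w γ (e z.1))
    · left
      rw [K, ← ENNReal.ofReal_mul hLp]
      refine ENNReal.ofReal_le_ofReal (mul_le_mul_of_nonneg_right ?_ (by positivity))
      refine Real.rpow_le_rpow (by linarith) ?_ hp
      rw [d_ff hL hγ]
      have h1 := θ_mem hL w z.1
      have h2 := θ_mem hL w z.2
      have : |θ L w z.2 - θ L w z.1| ≤ L := by
        rw [abs_le]
        constructor
        · linarith [h1.2, h2.1]
        · linarith [h1.1, h2.2]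
      linarith
    · exact Or.inr h
  have hmeasT : MeasurableSet {z : ℝ × ℝ | |z.1| < 1 ∧ |z.2| < 1 ∧
      L * η ≤ d (ff L w γ (e z.2)) (ff L w γ (e z.1))} := by
    have : {z : ℝ × ℝ | |z.1| < 1 ∧ |z.2| < 1 ∧
      L * η ≤ d (ff L w γ (e z.2)) (ff L w γ (e z.1))} = {z : ℝ × ℝ | |z.1| < 1 ∧ |z.2| < 1 ∧
      L * η ≤ |θ L w z.2 - θ L w z.1|} := by
      ext z
      simp only [Set.mem_ofPred_eq, d_ff hL hγ]
    rw [this]
    have hc : Continuous fun z : ℝ × ℝ => |θ L w z.2 - θ L w z.1| :=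
      (((θ_cont L w).comp continuous_snd).sub ((θ_cont L w).comp continuous_fst)).abs
    refine MeasurableSet.inter (measurableSet_lt (continuous_abs.comp continuous_fst).measurable
      measurable_const) ?_
    refine MeasurableSet.inter (measurableSet_lt (continuous_abs.comp continuous_snd).measurable
      measurable_const) ?_
    exact measurableSet_le measurable_const hc.measurable
  calc _ ≤ ∫⁻ z in {z : ℝ × ℝ | |z.1| < 1 ∧ |z.2| < 1 ∧
      L * η ≤ d (ff L w γ (e z.2)) (ff L w γ (e z.1))}, ENNReal.ofReal (L ^ p) * K z := by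
        refine setLIntegral_mono' hmeasT fun z hz => ?_
        rcases hbound z with h | h
        · exact h
        · exact absurd hz.2.2 h
    _ ≤ ∫⁻ z in S ∪ Prod.swap ⁻¹' S, ENNReal.ofReal (L ^ p) * K z := lintegral_mono_set hcover
    _ ≤ (∫⁻ z in S, ENNReal.ofReal (L ^ p) * K z) +
        ∫⁻ z in Prod.swap ⁻¹' S, ENNReal.ofReal (L ^ p) * K z := lintegral_union_le _ _ _
    _ = (∫⁻ z in S, ENNReal.ofReal (L ^ p) * K z) + ∫⁻ z in S, ENNReal.ofReal (L ^ p) * K z := by
        congr 1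
        have hmp : MeasurePreserving (Prod.swap : ℝ × ℝ → ℝ × ℝ) volume volume :=
          Measure.measurePreserving_swap
        rw [← hmp.setLIntegral_comp_preimage_emb MeasurableEquiv.prodComm.measurableEmbedding]
        refine lintegral_congr fun z => ?_
        rw [K_swap]
    _ = (ENNReal.ofReal (L ^ p) * ∫⁻ z in S, K z) + ENNReal.ofReal (L ^ p) * ∫⁻ z in S, K z := by
        rw [lintegral_const_mul _ K_measurable]
    _ ≤ ENNReal.ofReal (L ^ p) * ENNReal.ofReal (Real.log (1 / (η * w)) + 2 / η) +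
        ENNReal.ofReal (L ^ p) * ENNReal.ofReal (Real.log (1 / (η * w)) + 2 / η) := by
        gcongr <;> exact upper hw hw1 hη hη1
    _ = ENNReal.ofReal (2 * L ^ p * (Real.log (1 / (η * w)) + 2 / η)) := by
        rw [← ENNReal.ofReal_mul hLp, ← two_mul, ← ENNReal.ofReal_ofNat 2,
          ← ENNReal.ofReal_mul (by norm_num)]
        congr 1
        ring

lemma fails [MeasurableSpace N] (hd : HasSegment d) {p : ℝ} (hp : 0 ≤ p) (hp1 : p < 1) (C : ℝ) :
    ¬ Inequality d 1 p C := by
  obtain ⟨L, hL, γ, hγm, hγ⟩ := hd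
  intro hineq
  -- choice of the small threshold
  set a : ℝ := 1 / (8 * (|C| + 1)) with ha
  have hC0 := abs_nonneg C
  have ha0 : 0 < a := by positivity
  have ha1 : a < 1 := by
    rw [ha, div_lt_one (by positivity)]
    linarith
  set η : ℝ := a ^ (1 / (1 - p)) / 2 with hη
  have hq : 0 < 1 - p := by linarith
  have hη0 : 0 < η := by positivity
  have hη2 : a ^ (1 / (1 - p)) < 1 := Real.rpow_lt_one ha0.le ha1 (by positivity)
  have hη1 : η < 1 / 2 := by rw [hη]; linarith
  have hpow : (2 * η) ^ (1 - p) = a := by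
    have : 2 * η = a ^ (1 / (1 - p)) := by rw [hη]; ring
    rw [this, ← Real.rpow_mul ha0.le, one_div, inv_mul_cancel₀ hq.ne', Real.rpow_one]
  -- choice of the width
  set k : ℝ := Real.log (1 / η) + 2 / η with hk
  have hk0 : 0 ≤ k := by
    have : 0 ≤ Real.log (1 / η) := Real.log_nonneg (by rw [le_div_iff₀ hη0]; linarith)
    positivity
  set w : ℝ := Real.exp (-(3 + k)) with hwdef
  have hw : 0 < w := Real.exp_pos _
  have hw1 : w < 1 := by
    rw [hwdef, Real.exp_lt_one_iff]
    linarith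
  have hlogw : Real.log (1 / w) = 3 + k := by
    rw [one_div, Real.log_inv, hwdef, Real.log_exp]
    ring
  have hmeas : Measurable (ff L w γ) :=
    hγm.comp ((θ_cont L w).measurable.comp e.symm.continuous.measurable)
  have h := hineq (ball 0 1) (convex_ball _ _) (ff L w γ) hmeas (L * η) (L / 2)
    (mul_pos hL hη0) (by nlinarith)
  have h1 := (gap_lower hL hγ (p := p) hw hw1).trans h
  have h2 := h1.trans (mul_le_mul_right (gap_upper hL hγ hp hw hw1 hη0 (by linarith)) _)
  have e1 : L * η / (L / 2) = 2 * η := by field_simp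
  have e2 : ((1 : ℕ) : ℝ) - p = 1 - p := by norm_num
  rw [e1, e2, hpow] at h2
  have hCa : C * a ≤ 1 / 8 := by
    calc C * a ≤ |C| * a := mul_le_mul_of_nonneg_right (le_abs_self C) ha0.le
      _ ≤ (|C| + 1) * a := mul_le_mul_of_nonneg_right (by linarith) ha0.le
      _ = 1 / 8 := by rw [ha]; field_simp
  have h3 := h2.trans (mul_le_mul_left (ENNReal.ofReal_le_ofReal hCa) _)
  have hlogηw : Real.log (1 / (η * w)) + 2 / η = 3 + 2 * k := by
    have : 1 / (η * w) = (1 / η) * (1 / w) := by field_simp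
    rw [this, Real.log_mul (by positivity) (by positivity), hlogw, hk]
    ring
  rw [hlogηw, hlogw, ← ENNReal.ofReal_mul (by norm_num)] at h3
  have hLp : 0 < L ^ p := by positivity
  have h4 : (L / 2) ^ p * (3 + k - 1) ≤ 1 / 8 * (2 * L ^ p * (3 + 2 * k)) :=
    (ENNReal.ofReal_le_ofReal_iff (by positivity)).mp h3
  have h5 : L ^ p / 2 ≤ (L / 2) ^ p := by
    rw [Real.div_rpow hL.le (by norm_num)]
    refine div_le_div_of_nonneg_left hLp.le (by positivity) ?_
    calc (2 : ℝ) ^ p ≤ 2 ^ (1 : ℝ) := Real.rpow_le_rpow_of_exponent_le (by norm_num) hp1.le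
      _ = 2 := Real.rpow_one 2
  have h6 : L ^ p / 2 * (3 + k - 1) ≤ (L / 2) ^ p * (3 + k - 1) :=
    mul_le_mul_of_nonneg_right h5 (by linarith)
  have h7 : L ^ p * ((3 + k - 1) / 2) ≤ L ^ p * (1 / 8 * (2 * (3 + 2 * k))) := by linarith
  have h8 := le_of_mul_le_mul_left h7 hLp
  linarith

end main

/-- The unit circle in `ℝ²` (a compact Riemannian manifold). -/
abbrev S1 : Type := sphere (0 : EuclideanSpace ℝ (Fin 2)) 1

/-- The Riemannian distance of the unit circle (arc length, i.e. the angle). -/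
noncomputable def dS1 (x y : S1) : ℝ :=
  InnerProductGeometry.angle (x : EuclideanSpace ℝ (Fin 2)) y

/-- the arc length parametrisation -/
noncomputable def arc (s : ℝ) : S1 := ⟨!₂[Real.cos s, Real.sin s], by
  rw [mem_sphere_zero_iff_norm, EuclideanSpace.norm_eq]
  simp⟩

lemma hasSegment_circle : HasSegment dS1 := by
  refine ⟨1, one_pos, arc, ?_, ?_⟩
  · have : Continuous arc := by
      refine Continuous.subtype_mk ?_ _
      fun_prop
    exact this.measurable
  · intro s hs t ht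
    have h1 : ∀ r : ℝ, ‖((arc r : S1) : EuclideanSpace ℝ (Fin 2))‖ = 1 := fun r =>
      mem_sphere_zero_iff_norm.mp (arc r).2
    have h2 : inner ℝ ((arc s : S1) : EuclideanSpace ℝ (Fin 2)) (arc t : S1) =
        Real.cos |s - t| := by
      rw [Real.cos_abs, Real.cos_sub]
      simp [arc, PiLp.inner_apply, Fin.sum_univ_two]
      ring
    unfold dS1 InnerProductGeometry.angle
    rw [h2, h1, h1, mul_one, div_one, Real.arccos_cos (abs_nonneg _)]
    have : |s - t| ≤ 1 := by
      rw [abs_le]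
      constructor
      · linarith [hs.1, ht.2]
      · linarith [hs.2, ht.1]
    linarith [Real.pi_gt_three]

/-- **Q1 of MP_a53ef7_an is disproved.** For `m = 1`, every `p ∈ [0, 1)` and every constant `C`
the inequality fails: for every target space that contains a minimising geodesic, in particular for
the unit circle with its arc length distance. -/
theorem result :
    (∀ (N : Type) [MeasurableSpace N] (d : N → N → ℝ), HasSegment d →
      ∀ p : ℝ, 0 ≤ p → p < 1 → ∀ C : ℝ, ¬ Inequality d 1 p C) ∧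
    ∀ p : ℝ, 0 ≤ p → p < 1 → ∀ C : ℝ, ¬ Inequality dS1 1 p C :=
  ⟨fun _ _ _ hd _ hp hp1 C => fails hd hp hp1 C,
    fun _ hp hp1 C => fails hasSegment_circle hp hp1 C⟩

end Pool.Agent.Results.MP_a53ef7_an.FailsOnLine
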